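import Pool.Agent.W292.NR.Stm
set_option autoImplicit false

/-!
Project NR, part RANK: the candidate of a given rank.
-/

namespace Pool.Agent.W935.NR

open Finset Pool.Agent.W292.NR

/-- the element with exactly `j` elements below it -/
theorem exists_rank (I : Finset ℕ) : ∀ j < I.card, ∃ t ∈ I, (I.filter (fun u => u < t)).card = j := by
  induction I using Finset.induction_on_max with
  | empty => intro j hj; simp at hj
  | insert a s hs ih =>
    intro j hj
    have has : a ∉ s := fun h => lt_irrefl a (hs a h)
    rw [card_insert_of_notMem has] at hj
    rcases Nat.lt_or_ge j s.card with h | h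
    · obtain ⟨t, ht, hc⟩ := ih j h
      refine ⟨t, mem_insert_of_mem ht, ?_⟩
      rw [filter_insert, if_neg (not_lt.2 (hs t ht).le)]
      exact hc
    · refine ⟨a, mem_insert_self _ _, ?_⟩
      rw [filter_insert, if_neg (lt_irrefl a), filter_true_of_mem hs]
      omega

theorem st_st {k : ℕ} {st ln : ℕ → ℕ} (hC : Chains k st ln) {a : ℕ} (ha : a < k) :
    st (st a) = st a ∧ ln (st a) = ln a := by
  have h1 := hC.le a ha
  have h2 := hC.lt a ha
  exact hC.same a ha (st a) le_rfl (by omega)

theorem cls {k : ℕ} {st ln : ℕ → ℕ} (hC : Chains k st ln) {a u : ℕ} (ha : a < k) (hu : u < k) :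
    (u < st a ∧ st u + ln u ≤ st a) ∨
    (st a ≤ u ∧ u < st a + ln a ∧ st u = st a ∧ ln u = ln a) ∨
    (st a + ln a ≤ u ∧ st a + ln a ≤ st u) := by
  have a1 := hC.le a ha
  have a2 := hC.lt a ha
  have u1 := hC.le u hu
  have u2 := hC.lt u hu
  have a3 := st_st hC ha
  have u3 := st_st hC hu
  rcases Nat.lt_or_ge u (st a) with h | h
  · left
    refine ⟨h, ?_⟩
    by_contra hc
    have := (hC.same u hu (st a) (by omega) (by omega)).1
    omega
  · rcases Nat.lt_or_ge u (st a + ln a) with h' | h'
    · right; left
      exact ⟨h, h', hC.same a ha u h h'⟩
    · right; right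
      refine ⟨h', ?_⟩
      by_contra hc
      rcases Nat.lt_or_ge (st u) (st a) with h4 | h4
      · have := (hC.same u hu (st a) (by omega) (by omega)).1
        omega
      · have := hC.same a ha (st u) h4 (by omega)
        omega

/-- position of the candidate -/
theorem pos_cand (k : ℕ) (st ln : ℕ → ℕ) (o : ℕ → Bool) (v : ℕ → Bool) (u : Fin k) :
    pos k st ln o (cand k st ln v u) =
      if eps st ln v u = 1 then
        (if o u then 3 * st u + ln u + 2 * (ln u - 1 - (u - st u)) + (if v u then 1 else 0)
          else 3 * st u + 2 * (u - st u) + (if v u then 1 else 0))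
      else (if o u then 3 * st u + (u - st u) else 3 * st u + 2 * ln u + (u - st u)) := by
  unfold cand prim
  by_cases h1 : eps st ln v u = 1
  · rw [if_pos h1, if_pos h1]
    by_cases h2 : v u = true
    · rw [if_pos h2, if_pos h2]
      simp [pos]
    · rw [if_neg h2, if_neg h2]
      simp [pos]
  · rw [if_neg h1, if_neg h1]
    simp [pos]

theorem pos_lo {k : ℕ} {st ln : ℕ → ℕ} {o : ℕ → Bool} (v : ℕ → Bool) (u : Fin k) :
    3 * st u ≤ pos k st ln o (cand k st ln v u) := by
  rw [pos_cand]
  split_ifs <;> omega

theorem pos_hi {k : ℕ} {st ln : ℕ → ℕ} {o : ℕ → Bool} (hC : Chains k st ln) (v : ℕ → Bool)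
    (u : Fin k) : pos k st ln o (cand k st ln v u) < 3 * (st u + ln u) := by
  have u1 := hC.le u u.2
  have u2 := hC.lt u u.2
  rw [pos_cand]
  split_ifs <;> omega

theorem card_fin {k : ℕ} {p : Fin k → Prop} [DecidablePred p] {q : ℕ → Prop} [DecidablePred q]
    (h : ∀ u : Fin k, p u ↔ q u) : (univ.filter p).card = ((range k).filter q).card := by
  rw [← card_map Fin.valEmbedding]
  congr 1
  ext x
  simp only [mem_map, mem_filter, mem_univ, true_and, Fin.valEmbedding_apply, mem_range]
  constructor
  · rintro ⟨u, hu, rfl⟩
    exact ⟨u.2, (h u).1 hu⟩
  · rintro ⟨hx, hq⟩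
    exact ⟨⟨x, hx⟩, (h ⟨x, hx⟩).2 hq, rfl⟩

theorem rank : S_RANK := by
  intro k st ln o hC hO v W a ha hW hof hot
  have a1 := hC.le a ha
  have a2 := hC.lt a ha
  have a3 := hC.top a ha
  set A := st a with hA
  set l := ln a with hl
  obtain ⟨I, hI⟩ : ∃ I : Finset ℕ, I = (Ico A (A + l)).filter (fun t => eps st ln v t = 1) :=
    ⟨_, rfl⟩
  rw [← hI] at hW
  have memI : ∀ t, t ∈ I ↔ A ≤ t ∧ t < A + l ∧ eps st ln v t = 1 := by
    intro t
    simp [hI, and_assoc]
  -- general facts for a choice of `t ∈ I`
  have key : ∀ t ∈ I, ∃ ht : t < k, st t = A ∧ ln t = l ∧ o t = o a ∧ eps st ln v t = 1 ∧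
      (Ico (st t) t).filter (fun u => eps st ln v u = 1) = I.filter (fun u => u < t) := by
    intro t ht
    rw [memI] at ht
    obtain ⟨h1, h2, h3⟩ := ht
    obtain ⟨h4, h5⟩ := hC.same a ha t h1 h2
    refine ⟨by omega, h4, h5, hO a ha t h1 h2, h3, ?_⟩
    ext x
    rw [mem_filter, mem_filter, mem_Ico, memI, h4]
    constructor
    · rintro ⟨⟨h6, h7⟩, h8⟩
      exact ⟨⟨h6, by omega, h8⟩, h7⟩
    · rintro ⟨⟨h6, h7, h8⟩, h9⟩
      exact ⟨⟨h6, h9⟩, h8⟩
  cases ho : o a with
  | false =>
    have hj : a - A < I.card := by
      have := hof ho
      omega
    obtain ⟨t, htI, htc⟩ := exists_rank I _ hj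
    obtain ⟨htk, h1, h2, h3, h4, h5⟩ := key t htI
    have htI' := (memI t).1 htI
    refine ⟨⟨t, htk⟩, h1, h4, ?_, ?_⟩
    · show ((Ico (st t) t).filter (fun u => eps st ln v u = 1)).card < W
      rw [h5, htc]
      have := hof ho
      omega
    · have hpt : pos k st ln o (cand k st ln v ⟨t, htk⟩) =
          3 * A + 2 * (t - A) + (if v t then 1 else 0) := by
        rw [pos_cand]
        simp only
        rw [if_pos h4, h1, h3, ho]
        simp
      rw [card_fin (q := fun u => u < A ∨ (A ≤ u ∧ u < t ∧ eps st ln v u = 1))]
      · have : (range k).filter (fun u => u < A ∨ (A ≤ u ∧ u < t ∧ eps st ln v u = 1)) =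
            range A ∪ I.filter (fun u => u < t) := by
          ext x
          rw [mem_filter, mem_union, mem_range, mem_range, mem_filter, memI]
          constructor
          · rintro ⟨_, h | h⟩
            · exact Or.inl h
            · exact Or.inr ⟨⟨h.1, by omega, h.2.2⟩, h.2.1⟩
          · rintro (h | h)
            · exact ⟨by omega, Or.inl h⟩
            · exact ⟨by omega, Or.inr ⟨h.1.1, h.2, h.1.2.2⟩⟩
        rw [this, card_union_of_disjoint, card_range, htc]
        · omega
        · rw [disjoint_left]
          intro x hx hx'
          rw [mem_range] at hx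
          rw [mem_filter, memI] at hx'
          omega
      · intro u
        rw [hpt]
        have u1 := hC.le u u.2
        have u2 := hC.lt u u.2
        have lo := pos_lo (st := st) (ln := ln) (o := o) v u
        have hi := pos_hi (o := o) hC v u
        rcases cls hC ha u.2 with h | h | h
        · constructor
          · intro _
            exact Or.inl h.1
          · intro _
            have : 3 * (st u + ln u) ≤ 3 * A := by omega
            omega
        · obtain ⟨h6, h7, h8, h9⟩ := h
          have h10 : o u = false := by rw [hO a ha u h6 h7, ho]
          rw [pos_cand, h8, h9, h10]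
          by_cases h11 : eps st ln v u = 1
          · rw [if_pos h11]
            simp only [Bool.false_eq_true, if_false, h11, and_true]
            rw [← hA]
            constructor
            · intro h12
              right
              refine ⟨h6, ?_⟩
              by_contra h13
              have h14 : t ≤ (u : ℕ) := by omega
              rcases Nat.lt_or_ge t u with h15 | h15
              · split_ifs at h12 <;> omega
              · have : t = (u : ℕ) := by omega
                subst this
                exact lt_irrefl _ h12
            · rintro (h12 | h12)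
              · omega
              · split_ifs <;> omega
          · rw [if_neg h11]
            simp only [Bool.false_eq_true, if_false, h11, and_false, or_false]
            constructor
            · intro h12
              exfalso
              rw [← hA, ← hl] at h12
              split_ifs at h12 <;> omega
            · intro h12
              omega
        · constructor
          · intro h6
            exfalso
            have : 3 * (A + l) ≤ 3 * st u := by omega
            split_ifs at h6 <;> omega
          · rintro (h6 | h6)
            · omega
            · omega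
  | true =>
    have hj : A + l - 1 - a < I.card := by
      have := hot ho
      omega
    obtain ⟨t, htI, htc⟩ := exists_rank I _ hj
    obtain ⟨htk, h1, h2, h3, h4, h5⟩ := key t htI
    have htI' := (memI t).1 htI
    refine ⟨⟨t, htk⟩, h1, h4, ?_, ?_⟩
    · show ((Ico (st t) t).filter (fun u => eps st ln v u = 1)).card < W
      rw [h5, htc]
      have := hot ho
      omega
    · have hpt : pos k st ln o (cand k st ln v ⟨t, htk⟩) =
          3 * A + l + 2 * (l - 1 - (t - A)) + (if v t then 1 else 0) := by
        rw [pos_cand]
        simp only
        rw [if_pos h4, h1, h2, h3, ho]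
        simp
      rw [card_fin (q := fun u => u < A + l ∧ ¬ (u ∈ I ∧ u ≤ t))]
      · have : (range k).filter (fun u => u < A + l ∧ ¬ (u ∈ I ∧ u ≤ t)) =
            range (A + l) \ insert t (I.filter (fun u => u < t)) := by
          ext x
          rw [mem_filter, mem_sdiff, mem_range, mem_range, mem_insert, mem_filter]
          constructor
          · rintro ⟨_, h, h'⟩
            refine ⟨h, ?_⟩
            rintro (rfl | h6)
            · exact h' ⟨htI, le_rfl⟩
            · exact h' ⟨h6.1, h6.2.le⟩
          · rintro ⟨h, h'⟩
            refine ⟨by omega, h, ?_⟩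
            rintro ⟨h6, h7⟩
            rcases Nat.lt_or_ge x t with h8 | h8
            · exact h' (Or.inr ⟨h6, h8⟩)
            · exact h' (Or.inl (by omega))
        rw [this, card_sdiff_of_subset, card_insert_of_notMem, card_range, htc]
        · omega
        · simp
        · intro x hx
          rw [mem_insert, mem_filter, memI] at hx
          rw [mem_range]
          omega
      · intro u
        rw [hpt]
        have u1 := hC.le u u.2
        have u2 := hC.lt u u.2
        have lo := pos_lo (st := st) (ln := ln) (o := o) v u
        have hi := pos_hi (o := o) hC v u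
        rw [memI]
        rcases cls hC ha u.2 with h | h | h
        · constructor
          · intro _
            exact ⟨by omega, by omega⟩
          · intro _
            have : 3 * (st u + ln u) ≤ 3 * A := by omega
            omega
        · obtain ⟨h6, h7, h8, h9⟩ := h
          have h10 : o u = true := by rw [hO a ha u h6 h7, ho]
          rw [pos_cand, h8, h9, h10]
          by_cases h11 : eps st ln v u = 1
          · rw [if_pos h11]
            simp only [if_true, h11, and_true]
            rw [← hA, ← hl]
            constructor
            · intro h12
              refine ⟨h7, ?_⟩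
              rintro ⟨h13, h14⟩
              rcases Nat.lt_or_ge (u : ℕ) t with h15 | h15
              · split_ifs at h12 <;> omega
              · have : t = (u : ℕ) := by omega
                subst this
                exact lt_irrefl _ h12
            · rintro ⟨h12, h13⟩
              have : t < (u : ℕ) := by
                by_contra h14
                exact h13 ⟨⟨h6, h12⟩, by omega⟩
              split_ifs <;> omega
          · rw [if_neg h11]
            simp only [if_true, h11, and_false, false_and, not_false_eq_true, and_true]
            rw [← hA]
            constructor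
            · intro h12
              exact h7
            · intro h12
              split_ifs <;> omega
        · constructor
          · intro h6
            exfalso
            have : 3 * (A + l) ≤ 3 * st u := by omega
            split_ifs at h6 <;> omega
          · rintro ⟨h6, _⟩
            omega

end Pool.Agent.W935.NR
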